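import Pool.Agent.H28.NW.Targets

/-!
# LG1: the sum of all weights
-/

set_option autoImplicit false

namespace Pool.Agent.H14.NW

open Pool.Agent.H28.NW

theorem pf_LG1 : W_LG1 := by
  intro X h hh _
  refine ⟨wlg_nonneg fun n _ => (hh n).1, ?_⟩
  exact (wlg_mono fun n _ => (hh n).2).trans (wlg_one_le X)

end Pool.Agent.H14.NW
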