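import Pool.Agent.H28.NW.Targets

/-!
# LSH: logarithmic averages and shifts
-/

set_option autoImplicit false

namespace Pool.Agent.H14.NW

open Pool.Agent.H28.NW
open Pool.Agent.H93.EB

theorem pf_LSH : W_LSH := by
  intro X s h hh
  have hb : ∀ n, |h n| ≤ 1 := fun n => abs_le.2 ⟨by linarith [(hh n).1], (hh n).2⟩
  have h1 := wlg_shift X s h hb
  have h2 := hs_le s
  have h3 : Real.log s ≤ Real.log (1 + s) := by
    rcases Nat.eq_zero_or_pos s with h0 | h0
    · subst h0
      simp
    · have h4 : (0 : ℝ) < s := by exact_mod_cast h0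
      exact Real.log_le_log h4 (by linarith)
  linarith

end Pool.Agent.H14.NW
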